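import Pool.Agent.Q322.LS.Tel

/-!
# Infinitely many axes through one point

`Axes k`: the ring of all sequences of power series over the field `k` which have the same constant
coefficient and are almost all constant.
-/

set_option autoImplicit false

open PowerSeries

noncomputable section

namespace Pool.Agent.Q322.LS

variable (k : Type) [Field k]

/-- The ring `k + ⨁ X k⟦X⟧`. -/
def Axes : Subring (ℕ → k⟦X⟧) where
  carrier := {f | ∃ a : k, (∀ i, constantCoeff (f i) = a) ∧ {i | f i ≠ C a}.Finite}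
  mul_mem' := by
    rintro f g ⟨a, ha, ha'⟩ ⟨b, hb, hb'⟩
    refine ⟨a * b, fun i => by simp [ha, hb], (ha'.union hb').subset ?_⟩
    intro i hi
    by_contra h
    simp only [Set.mem_union, Set.mem_ofPred_eq, not_or, not_not] at h
    apply hi
    simp [h.1, h.2]
  one_mem' := ⟨1, fun i => by simp, by simp⟩
  add_mem' := by
    rintro f g ⟨a, ha, ha'⟩ ⟨b, hb, hb'⟩
    refine ⟨a + b, fun i => by simp [ha, hb], (ha'.union hb').subset ?_⟩
    intro i hi
    by_contra h
    simp only [Set.mem_union, Set.mem_ofPred_eq, not_or, not_not] at h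
    apply hi
    simp [h.1, h.2]
  zero_mem' := ⟨0, fun i => by simp, by simp⟩
  neg_mem' := by
    rintro f ⟨a, ha, ha'⟩
    refine ⟨-a, fun i => by simp [ha], ha'.subset ?_⟩
    intro i hi
    by_contra h
    simp only [Set.mem_ofPred_eq, not_not] at h
    apply hi
    simp [h]

variable {k}

/-- the `i`-th coordinate -/
def cr (i : ℕ) : Axes k →+* k⟦X⟧ := (Pi.evalRingHom _ i).comp (Axes k).subtype

/-- the constant coefficient -/
def ep : Axes k →+* k := (constantCoeff (R := k)).comp (cr 0)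

theorem cr_apply (i : ℕ) (f : Axes k) : cr i f = f.1 i := rfl

theorem axes_ext {f g : Axes k} (h : ∀ i, cr i f = cr i g) : f = g :=
  Subtype.ext (funext h)

theorem cc_cr (i : ℕ) (f : Axes k) : constantCoeff (cr i f) = ep f := by
  obtain ⟨a, ha, -⟩ := f.2
  exact (ha i).trans (ha 0).symm

/-- the sequence with the power series `g` at the place `i` and its constant coefficient at the other
places -/
def lift (i : ℕ) (g : k⟦X⟧) : Axes k :=
  ⟨fun j => if j = i then g else C (constantCoeff g), constantCoeff g, fun j => by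
    by_cases h : j = i <;> simp [h], (Set.finite_singleton i).subset (by
      intro j hj
      by_contra h
      apply hj
      exact if_neg h)⟩

theorem cr_lift_self (i : ℕ) (g : k⟦X⟧) : cr i (lift i g) = g := by
  simp [cr_apply, lift]

theorem cr_lift_ne {i j : ℕ} (h : j ≠ i) (g : k⟦X⟧) : cr j (lift i g) = C (constantCoeff g) := by
  simp [cr_apply, lift, h]

theorem ep_lift (i : ℕ) (g : k⟦X⟧) : ep (lift i g) = constantCoeff g := by
  rw [← cc_cr i, cr_lift_self]

theorem cr_surjective (i : ℕ) : Function.Surjective (cr (k := k) i) :=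
  fun g => ⟨lift i g, cr_lift_self i g⟩

theorem ep_surjective : Function.Surjective (ep (k := k)) :=
  fun a => ⟨lift 0 (C a), by rw [ep_lift]; simp⟩

/-- the prime ideal of the `i`-th axis -/
def pp (i : ℕ) : Ideal (Axes k) := RingHom.ker (cr i)

instance (i : ℕ) : (pp (k := k) i).IsPrime := RingHom.ker_isPrime _

/-- the maximal ideal -/
def mm : Ideal (Axes k) := RingHom.ker ep

instance : (mm (k := k)).IsMaximal := RingHom.ker_isMaximal_of_surjective _ ep_surjective

theorem mem_pp {i : ℕ} {f : Axes k} : f ∈ pp i ↔ cr i f = 0 := RingHom.mem_ker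

theorem mem_mm {f : Axes k} : f ∈ mm ↔ ep f = 0 := RingHom.mem_ker

/-- the elements which vanish on all axes but the `i`-th -/
def Ii (i : ℕ) : Ideal (Axes k) where
  carrier := {f | ∀ j, j ≠ i → cr j f = 0}
  add_mem' := fun ha hb j hj => by rw [map_add, ha j hj, hb j hj, add_zero]
  zero_mem' := fun j _ => map_zero _
  smul_mem' := fun c f hf j hj => by rw [smul_eq_mul, map_mul, hf j hj, mul_zero]

theorem mem_Ii {i : ℕ} {f : Axes k} : f ∈ Ii i ↔ ∀ j, j ≠ i → cr j f = 0 := Iff.rfl

theorem Ii_le (i : ℕ) : Ii (k := k) i ≤ mm := by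
  intro f hf
  rw [mem_mm, ← cc_cr (i + 1), hf (i + 1) (Nat.succ_ne_self i), map_zero]

theorem Ii_eq_zero {i : ℕ} {f : Axes k} (h1 : f ∈ Ii i) (h2 : f ∈ pp i) : f = 0 := by
  refine axes_ext fun j => ?_
  rw [map_zero]
  by_cases h : j = i
  · rw [h]; exact mem_pp.1 h2
  · exact h1 j h

theorem lift_mem {i : ℕ} {g : k⟦X⟧} (h : constantCoeff g = 0) : lift i g ∈ Ii i := by
  intro j hj
  rw [cr_lift_ne hj, h, map_zero]

theorem lift_of_mem {i : ℕ} {f : Axes k} (h : f ∈ Ii i) : lift i (cr i f) = f := by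
  refine axes_ext fun j => ?_
  by_cases hj : j = i
  · rw [hj, cr_lift_self]
  · rw [cr_lift_ne hj, h j hj, cc_cr, mem_mm.1 (Ii_le i h), map_zero]

/-- the coordinate of the `i`-th axis -/
def xx (i : ℕ) : Axes k := lift i X

theorem xx_mem (i : ℕ) : xx (k := k) i ∈ Ii i := lift_mem (by simp)

theorem cr_xx (i : ℕ) : cr (k := k) i (xx i) = X := cr_lift_self i X

theorem xx_notMem (i : ℕ) : xx (k := k) i ∉ pp i := by
  rw [mem_pp, cr_xx]
  exact PowerSeries.X_ne_zero

/-- every element which is not zero on the `i`-th axis divides a power of the coordinate -/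
theorem exists_mul_eq {i : ℕ} {b : Axes k} (hb : b ∉ pp i) :
    ∃ (n : ℕ) (c : Axes k), c ∈ Ii i ∧ b * c = xx i ^ n := by
  have hb' : cr i b ≠ 0 := fun h => hb (mem_pp.2 h)
  have hu : IsUnit (divXPowOrder (cr i b)) := by
    refine ⟨Unit_of_divided_by_X_pow_order (cr i b), Unit_of_divided_by_X_pow_order_nonzero hb'⟩
  obtain ⟨u, hu⟩ := hu
  have hX : X ^ (cr i b).order.toNat * divXPowOrder (cr i b) = cr i b :=
    X_pow_order_mul_divXPowOrder
  refine ⟨(cr i b).order.toNat + 1, lift i (X * ((u⁻¹ : (k⟦X⟧)ˣ) : k⟦X⟧)), lift_mem (by simp), ?_⟩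
  refine axes_ext fun j => ?_
  by_cases hj : j = i
  · rw [hj, map_mul, cr_lift_self, map_pow, cr_xx]
    nth_rewrite 1 [← hX]
    rw [← hu, pow_succ]
    calc X ^ (cr i b).order.toNat * (u : k⟦X⟧) * (X * ((u⁻¹ : (k⟦X⟧)ˣ) : k⟦X⟧))
        = X ^ (cr i b).order.toNat * X * ((u : k⟦X⟧) * ((u⁻¹ : (k⟦X⟧)ˣ) : k⟦X⟧)) := by ring
      _ = X ^ (cr i b).order.toNat * X := by rw [Units.mul_inv, mul_one]
  · rw [map_mul, cr_lift_ne hj, map_pow, xx_mem i j hj]
    simp

end Pool.Agent.Q322.LS

end
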