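import Mathlib

/-!
# Localizing subcategories of the derived category: modules

`ClosedSums P`: the property `P` of objects of `D(R)` is closed under direct sums of complexes.
`InLoc S X`: `X` is in the smallest localizing subcategory which contains `S`.
-/

set_option autoImplicit false

open CategoryTheory Limits DerivedCategory

namespace Pool.Agent.Q322.LS

attribute [local instance] HasDerivedCategory.standard

variable (R : Type) [CommRing R]

/-- The derived category of `R`-modules. -/
abbrev D := DerivedCategory (ModuleCat.{0} R)

variable {R}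

/-- `P` is closed under arbitrary direct sums (of cochain complexes, which are the direct sums of
the derived category). -/
def ClosedSums (P : ObjectProperty (D R)) : Prop :=
  ∀ (J : Type) (K : J → CochainComplex (ModuleCat.{0} R) ℤ),
    (∀ j, P (Q.obj (K j))) → P (Q.obj (∐ K))

/-- `P` is a localizing subcategory: full triangulated, closed under isomorphisms and under
arbitrary direct sums. -/
structure Localizing (P : ObjectProperty (D R)) : Prop where
  tri : P.IsTriangulated
  iso : P.IsClosedUnderIsomorphisms
  sums : ClosedSums P

/-- `X` belongs to the smallest localizing subcategory which contains `S`. -/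
def InLoc (S : ObjectProperty (D R)) (X : D R) : Prop :=
  ∀ P : ObjectProperty (D R), Localizing P → S ≤ P → P X

/-- the module `M` in degree zero -/
noncomputable abbrev deg0 (M : ModuleCat.{0} R) : D R := (singleFunctor (ModuleCat.{0} R) 0).obj M

/-- closure properties of the modules in a localizing subcategory -/
structure Good (G : (M : Type) → [AddCommGroup M] → [Module R M] → Prop) : Prop where
  equiv : ∀ (M N : Type) [AddCommGroup M] [Module R M] [AddCommGroup N] [Module R N],
    (M ≃ₗ[R] N) → G M → G N
  ses : ∀ (A B C : Type) [AddCommGroup A] [Module R A] [AddCommGroup B] [Module R B]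
    [AddCommGroup C] [Module R C] (f : A →ₗ[R] B) (g : B →ₗ[R] C),
    Function.Injective f → Function.Surjective g → Function.Exact f g →
    (G A → G B → G C) ∧ (G A → G C → G B) ∧ (G B → G C → G A)
  sum : ∀ (J : Type) (M : J → Type) [∀ j, AddCommGroup (M j)] [∀ j, Module R (M j)],
    (∀ j, G (M j)) → G (DirectSum J M)

theorem good_of_localizing (P : ObjectProperty (D R)) (hP : Localizing P) :
    Good (R := R) (fun M _ _ => P (deg0 (ModuleCat.of R M))) := by
  have h1 := hP.tri
  have h2 := hP.iso
  refine ⟨?_, ?_, ?_⟩
  · intro M N _ _ _ _ e h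
    exact P.prop_of_iso ((singleFunctor (ModuleCat.{0} R) 0).mapIso e.toModuleIso) h
  · intro A B C _ _ _ _ _ _ f g hf hg hfg
    let S : ShortComplex (ModuleCat.{0} R) :=
      ShortComplex.mk (ModuleCat.ofHom f) (ModuleCat.ofHom g) (by
        ext x
        exact hfg.apply_apply_eq_zero x)
    have hS : S.ShortExact := by
      refine { exact := ?_, mono_f := ?_, epi_g := ?_ }
      · exact (ShortComplex.moduleCat_exact_iff S).2 fun x hx => (hfg x).1 hx
      · exact (ModuleCat.mono_iff_injective _).2 hf
      · exact (ModuleCat.epi_iff_surjective _).2 hg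
    have hd := hS.singleTriangle_distinguished
    refine ⟨fun a b => ?_, fun a c => ?_, fun b c => ?_⟩
    · exact P.ext_of_isTriangulatedClosed₃ _ hd a b
    · exact P.ext_of_isTriangulatedClosed₂ _ hd a c
    · exact P.ext_of_isTriangulatedClosed₁ _ hd b c
  · intro J M _ _ h
    classical
    let Z : J → ModuleCat.{0} R := fun j => ModuleCat.of R (M j)
    let F := HomologicalComplex.single (ModuleCat.{0} R) (ComplexShape.up ℤ) 0
    have h3 := hP.sums J (fun j => F.obj (Z j)) h
    have e1 : (∐ fun j => F.obj (Z j)) ≅ F.obj (∐ Z) := PreservesCoproduct.iso F Z |>.symm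
    have e2 : F.obj (∐ Z) ≅ F.obj (ModuleCat.of R (DirectSum J M)) :=
      F.mapIso (ModuleCat.coprodIsoDirectSum Z)
    exact P.prop_of_iso (Q.mapIso (e1 ≪≫ e2)) h3

end Pool.Agent.Q322.LS
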