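import Pool.Agent.Q322.LS.Axes

set_option autoImplicit false

open PowerSeries DirectSum

noncomputable section

namespace Pool.Agent.Q322.LS

variable {k : Type} [Field k]

/-- the residue field of the `i`-th axis -/
abbrev KK (k : Type) [Field k] (i : ℕ) := (pp (k := k) i).ResidueField

/-- the image of `Ii i` -/
def L0 (i : ℕ) : Submodule (Axes k) (KK k i) := Submodule.map (Algebra.linearMap (Axes k) (KK k i)) (Ii i)

theorem am_eq_zero {i : ℕ} {f : Axes k} : algebraMap (Axes k) (KK k i) f = 0 ↔ f ∈ pp i :=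
  Ideal.algebraMap_residueField_eq_zero

theorem am_eq_iff {i : ℕ} {f g : Axes k} :
    algebraMap (Axes k) (KK k i) f = algebraMap (Axes k) (KK k i) g ↔ cr i f = cr i g := by
  rw [← sub_eq_zero, ← map_sub, am_eq_zero, mem_pp, map_sub, sub_eq_zero]

theorem am_mem_L0 {i : ℕ} {f : Axes k} : algebraMap (Axes k) (KK k i) f ∈ L0 i ↔ f ∈ mm := by
  constructor
  · rintro ⟨g, hg, h⟩
    have h' : cr i g = cr i f := am_eq_iff.1 h
    rw [mem_mm, ← cc_cr i, ← h', cc_cr]
    exact mem_mm.1 (Ii_le i hg)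
  · intro h
    refine ⟨lift i (cr i f), lift_mem (by rw [cc_cr]; exact mem_mm.1 h), ?_⟩
    exact am_eq_iff.2 (cr_lift_self i _)

theorem exists_frac (i : ℕ) (y : KK k i) : ∃ a b : Axes k, b ∉ pp i ∧
    algebraMap (Axes k) (KK k i) b * y = algebraMap (Axes k) (KK k i) a := by
  obtain ⟨⟨a, b⟩, h⟩ := IsLocalization.surj (nonZeroDivisors (Axes k ⧸ pp (k := k) i)) y
  obtain ⟨a, rfl⟩ := Ideal.Quotient.mk_surjective a
  obtain ⟨b', hb'⟩ := Ideal.Quotient.mk_surjective b.1
  refine ⟨a, b', ?_, ?_⟩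
  · intro hm
    have : (b : Axes k ⧸ pp (k := k) i) = 0 := by
      rw [← hb']
      exact Ideal.Quotient.eq_zero_iff_mem.2 hm
    exact nonZeroDivisors.ne_zero b.2 this
  · have e1 : algebraMap (Axes k ⧸ pp (k := k) i) (KK k i) b = algebraMap (Axes k) (KK k i) b' := by
      rw [← hb']
      rfl
    rw [mul_comm, ← e1, h]
    rfl

/-- the quotient `K / L0` -/
abbrev TT (k : Type) [Field k] (i : ℕ) := KK k i ⧸ L0 (k := k) i

theorem TT_nil (i : ℕ) (t : TT k i) : ∃ n : ℕ, (xx (k := k) i) ^ n • t = 0 := by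
  obtain ⟨y, rfl⟩ := Submodule.mkQ_surjective _ t
  obtain ⟨a, b, hb, h⟩ := exists_frac i y
  obtain ⟨n, c, hc, hbc⟩ := exists_mul_eq hb
  refine ⟨n, ?_⟩
  rw [← map_smul, Submodule.mkQ_apply, Submodule.Quotient.mk_eq_zero]
  rw [Algebra.smul_def, ← hbc, map_mul, mul_right_comm, h, ← map_mul, am_mem_L0]
  exact Ideal.mul_mem_left _ _ (Ii_le i hc)

theorem TT_div (i : ℕ) (t : TT k i) : ∃ s : TT k i, (xx (k := k) i) • s = t := by
  obtain ⟨y, rfl⟩ := Submodule.mkQ_surjective _ t
  refine ⟨(L0 i).mkQ ((algebraMap (Axes k) (KK k i) (xx i))⁻¹ * y), ?_⟩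
  rw [← map_smul, Algebra.smul_def, ← mul_assoc, mul_inv_cancel₀, one_mul]
  intro h
  exact xx_notMem i (am_eq_zero.1 h)

/-- the map `A → T[x]` -/
def tor (i : ℕ) : Axes k →ₗ[Axes k] Submodule.torsionBy (Axes k) (TT k i) (xx i) :=
  ((L0 (k := k) i).mkQ.comp (Algebra.linearMap (Axes k) (KK k i))).codRestrict _ (by
    intro f
    rw [Submodule.mem_torsionBy_iff, ← map_smul, LinearMap.comp_apply, Submodule.mkQ_apply,
      Submodule.Quotient.mk_eq_zero]
    exact am_mem_L0.2 (Ideal.mul_mem_right _ _ (Ii_le i (xx_mem i))))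

theorem tor_surj (i : ℕ) : Function.Surjective (tor (k := k) i) := by
  rintro ⟨t, ht⟩
  obtain ⟨y, rfl⟩ := Submodule.mkQ_surjective _ t
  rw [Submodule.mem_torsionBy_iff, ← map_smul, Submodule.mkQ_apply,
    Submodule.Quotient.mk_eq_zero] at ht
  obtain ⟨f, hf, hfy⟩ := ht
  have h0 : constantCoeff (cr i f) = 0 := by
    rw [cc_cr]
    exact mem_mm.1 (Ii_le i hf)
  obtain ⟨g, hg⟩ := X_dvd_iff.2 h0
  refine ⟨lift i g, Subtype.ext ?_⟩
  show (L0 i).mkQ (algebraMap (Axes k) (KK k i) (lift i g)) = (L0 i).mkQ y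
  congr 1
  have hx : algebraMap (Axes k) (KK k i) (xx i) ≠ 0 := fun h => xx_notMem i (am_eq_zero.1 h)
  apply mul_left_cancel₀ hx
  rw [← map_mul]
  rw [Algebra.smul_def] at hfy
  rw [← hfy]
  refine am_eq_iff.2 ?_
  rw [map_mul, cr_xx, cr_lift_self, hg]

theorem tor_ker (i : ℕ) : LinearMap.ker (tor (k := k) i) = mm := by
  ext f
  rw [LinearMap.mem_ker]
  constructor
  · intro h
    have h' : (L0 i).mkQ (algebraMap (Axes k) (KK k i) f) = 0 := congrArg Subtype.val h
    rw [Submodule.mkQ_apply, Submodule.Quotient.mk_eq_zero] at h'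
    exact am_mem_L0.1 h'
  · intro h
    refine Subtype.ext ?_
    show (L0 i).mkQ (algebraMap (Axes k) (KK k i) f) = 0
    rw [Submodule.mkQ_apply, Submodule.Quotient.mk_eq_zero]
    exact am_mem_L0.2 h

/-- the map from the direct sum of the ideals `Ii` to the maximal ideal -/
def sg : (⨁ i, Ii (k := k) i) →ₗ[Axes k] mm (k := k) :=
  DirectSum.toModule (Axes k) ℕ _ fun i => Submodule.inclusion (Ii_le i)

theorem cr_sg (j : ℕ) (d : ⨁ i, Ii (k := k) i) :
    cr j (sg d : Axes k) = cr j (d j : Axes k) := by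
  induction d using DirectSum.induction_on with
  | zero => simp
  | of i t =>
    have e : sg (DirectSum.of (fun i => Ii (k := k) i) i t) = Submodule.inclusion (Ii_le i) t := by
      rw [← DirectSum.lof_eq_of (Axes k)]
      exact DirectSum.toModule_lof _ _ _
    rw [e]
    by_cases h : i = j
    · subst h
      rw [DirectSum.of_eq_same]
      rfl
    · rw [DirectSum.of_eq_of_ne _ _ _ (Ne.symm h)]
      have h1 : cr j (t : Axes k) = 0 := t.2 j (Ne.symm h)
      have h2 : ((Submodule.inclusion (Ii_le i) t : mm (k := k)) : Axes k) = t := rfl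
      rw [h2, h1]
      simp
  | add a b ha hb =>
    rw [map_add]
    have e1 : ((sg a + sg b : mm (k := k)) : Axes k) = (sg a : Axes k) + sg b := rfl
    have e2 : (((a + b : ⨁ i, Ii (k := k) i) j : Ii (k := k) j) : Axes k) = (a j : Axes k) + b j := rfl
    rw [e1, e2, map_add, map_add, ha, hb]

theorem sg_inj : Function.Injective (sg (k := k)) := by
  intro a b hab
  refine DFinsupp.ext fun j => Subtype.ext ?_
  have h : cr j (a j : Axes k) = cr j (b j : Axes k) := by rw [← cr_sg, ← cr_sg, hab]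
  rw [← lift_of_mem (a j).2, ← lift_of_mem (b j).2, h]

theorem sg_surj : Function.Surjective (sg (k := k)) := by
  rintro ⟨f, hf⟩
  obtain ⟨a, ha, hfin⟩ := f.2
  have ha0 : a = 0 := (ha 0).symm.trans (mem_mm.1 hf)
  subst ha0
  have hc : ∀ i, constantCoeff (cr i f) = 0 := fun i => by rw [cc_cr]; exact mem_mm.1 hf
  refine ⟨∑ i ∈ hfin.toFinset, DirectSum.lof (Axes k) ℕ (fun i => Ii (k := k) i) i
    ⟨lift i (cr i f), lift_mem (hc i)⟩, Subtype.ext (axes_ext fun j => ?_)⟩
  rw [cr_sg]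
  have e : ((∑ i ∈ hfin.toFinset, DirectSum.lof (Axes k) ℕ (fun i => Ii (k := k) i) i
      ⟨lift i (cr i f), lift_mem (hc i)⟩ : ⨁ i, Ii (k := k) i) j : Ii (k := k) j) =
      ∑ i ∈ hfin.toFinset, (DirectSum.lof (Axes k) ℕ (fun i => Ii (k := k) i) i
      ⟨lift i (cr i f), lift_mem (hc i)⟩ : ⨁ i, Ii (k := k) i) j := by
    exact map_sum (DirectSum.component (Axes k) ℕ (fun i => Ii (k := k) i) j) _ _
  rw [e, Finset.sum_eq_single j]
  · rw [DirectSum.lof_eq_of, DirectSum.of_eq_same]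
    exact cr_lift_self j _
  · intro i _ hij
    rw [DirectSum.lof_eq_of, DirectSum.of_eq_of_ne _ _ _ (Ne.symm hij)]
  · intro hj
    have h0 : f.1 j = C 0 := by
      by_contra h
      exact hj (hfin.mem_toFinset.2 h)
    rw [DirectSum.lof_eq_of, DirectSum.of_eq_same]
    apply Subtype.ext
    refine axes_ext fun l => ?_
    have h1 : cr j f = 0 := by rw [cr_apply, h0, map_zero]
    show cr l (lift j (cr j f)) = cr l 0
    rw [h1]
    by_cases hl : l = j
    · rw [hl, cr_lift_self, map_zero]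
    · rw [cr_lift_ne hl]
      simp

/-- the ring `Axes k` is generated by its residue fields -/
theorem Good.axes {G : (M : Type) → [AddCommGroup M] → [Module (Axes k) M] → Prop} (hG : Good G)
    (h1 : ∀ i, G (KK k i)) (h2 : G (mm (k := k)).ResidueField) : G (Axes k) := by
  -- the residue field of the maximal ideal
  have q : G (Axes k ⧸ mm (k := k)) := by
    refine hG.equiv _ _ (LinearEquiv.ofBijective
      (IsScalarTower.toAlgHom (Axes k) (Axes k ⧸ mm (k := k)) (mm (k := k)).ResidueField).toLinearMap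
      ?_).symm h2
    exact Ideal.bijective_algebraMap_quotient_residueField _
  have t1 : ∀ i, G (Submodule.torsionBy (Axes k) (TT k i) (xx i)) := fun i =>
    hG.equiv _ _ ((Submodule.quotEquivOfEq _ _ (tor_ker i).symm).trans
      ((tor (k := k) i).quotKerEquivOfSurjective (tor_surj i))) q
  have t2 : ∀ i, G (TT k i) := fun i => hG.torsion (xx i) (TT_nil i) (TT_div i) (t1 i)
  have t3 : ∀ i, G (Ii (k := k) i) := by
    intro i
    refine (hG.ses _ _ _ ((Algebra.linearMap (Axes k) (KK k i)).comp (Ii (k := k) i).subtype)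
      (L0 i).mkQ ?_ (Submodule.mkQ_surjective _) ?_).2.2 (h1 i) (t2 i)
    · rw [← LinearMap.ker_eq_bot, LinearMap.ker_eq_bot']
      rintro ⟨f, hf⟩ h
      exact Subtype.ext (Ii_eq_zero hf (am_eq_zero.1 h))
    · intro y
      rw [Submodule.mkQ_apply, Submodule.Quotient.mk_eq_zero]
      constructor
      · rintro ⟨f, hf, h⟩
        exact ⟨⟨f, hf⟩, h⟩
      · rintro ⟨⟨f, hf⟩, h⟩
        exact ⟨f, hf, h⟩
  have t4 : G (mm (k := k)) :=
    hG.equiv _ _ (LinearEquiv.ofBijective sg ⟨sg_inj, sg_surj⟩) (hG.sum ℕ (fun i => Ii (k := k) i) t3)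
  refine (hG.ses _ _ _ (mm (k := k)).subtype (Submodule.mkQ (mm (k := k)))
    (Submodule.subtype_injective _) (Submodule.mkQ_surjective _) ?_).2.1 t4 q
  exact LinearMap.exact_subtype_mkQ _

end Pool.Agent.Q322.LS

end
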