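import Pool.Agent.Q322.LS.Der

set_option autoImplicit false

open DirectSum

namespace Pool.Agent.Q322.LS

variable {R : Type} [CommRing R] {G : (M : Type) → [AddCommGroup M] → [Module R M] → Prop}

theorem Good.zero (hG : Good G) (M : Type) [AddCommGroup M] [Module R M] [Subsingleton M] : G M := by
  have h := hG.sum PEmpty (fun _ => R) (by rintro ⟨⟩)
  exact hG.equiv _ _ (LinearEquiv.ofSubsingleton _ _) h

section Telescope

variable {T : Type} [AddCommGroup T] [Module R T] (N : ℕ → Submodule R T) (hN : Monotone N)

/-- the shift map -/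
noncomputable def phi : (⨁ n, N n) →ₗ[R] (⨁ n, N n) :=
  DirectSum.toModule R ℕ _ fun n =>
    DirectSum.lof R ℕ (fun n => N n) n -
      (DirectSum.lof R ℕ (fun n => N n) (n + 1)).comp (Submodule.inclusion (hN n.le_succ))

/-- the sum map -/
noncomputable def psi : (⨁ n, N n) →ₗ[R] T :=
  DirectSum.toModule R ℕ _ fun n => (N n).subtype

theorem psi_phi (d : ⨁ n, N n) : psi N (phi N hN d) = 0 := by
  have h : (psi N).comp (phi N hN) = 0 := by
    refine DirectSum.linearMap_ext _ fun n => ?_
    ext t
    simp [psi, phi]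
  exact congrArg (fun f => f d) h

theorem phi_zero (d : ⨁ n, N n) : ((phi N hN d) 0 : T) = d 0 := by
  have h : ((N 0).subtype.comp (DirectSum.component R ℕ (fun n => N n) 0)).comp (phi N hN) =
      (N 0).subtype.comp (DirectSum.component R ℕ (fun n => N n) 0) := by
    refine DirectSum.linearMap_ext _ fun n => ?_
    ext t
    simp [phi, DirectSum.component.of]
  exact congrArg (fun f => f d) h

theorem phi_succ (d : ⨁ n, N n) (m : ℕ) :
    ((phi N hN d) (m + 1) : T) = d (m + 1) - d m := by
  have h : ((N (m + 1)).subtype.comp (DirectSum.component R ℕ (fun n => N n) (m + 1))).comp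
      (phi N hN) =
      (N (m + 1)).subtype.comp (DirectSum.component R ℕ (fun n => N n) (m + 1)) -
      (N m).subtype.comp (DirectSum.component R ℕ (fun n => N n) m) := by
    refine DirectSum.linearMap_ext _ fun n => ?_
    ext t
    simp only [phi, LinearMap.comp_apply, DirectSum.toModule_lof, LinearMap.sub_apply, map_sub,
      DirectSum.component.of, Submodule.subtype_apply]
    by_cases h1 : n = m
    · subst h1
      simp
    · by_cases h2 : n = m + 1
      · subst h2
        simp
      · simp [h1, h2]
  exact congrArg (fun f => f d) h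

theorem phi_inj : Function.Injective (phi N hN) := by
  rw [← LinearMap.ker_eq_bot, LinearMap.ker_eq_bot']
  intro d hd
  have h : ∀ n, (d n : T) = 0 := by
    intro n
    induction n with
    | zero => rw [← phi_zero N hN d, hd]; rfl
    | succ n ih =>
      have := phi_succ N hN d n
      rw [hd, ih, sub_zero] at this
      rw [← this]; rfl
  ext n
  exact h n

theorem exists_rep (d : ⨁ n, N n) : ∃ (e : ⨁ n, N n) (n : ℕ) (t : N n),
    d = phi N hN e + DirectSum.lof R ℕ (fun n => N n) n t := by
  have up : ∀ (k n : ℕ) (t : N n), ∃ (e : ⨁ n, N n) (s : N (n + k)),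
      DirectSum.lof R ℕ (fun n => N n) n t = phi N hN e +
        DirectSum.lof R ℕ (fun n => N n) (n + k) s := by
    intro k
    induction k with
    | zero => intro n t; exact ⟨0, t, by simp⟩
    | succ k ih =>
      intro n t
      obtain ⟨e, s, h⟩ := ih n t
      refine ⟨e + DirectSum.lof R ℕ (fun n => N n) (n + k) s,
        Submodule.inclusion (hN (n + k).le_succ) s, ?_⟩
      rw [h, map_add]
      have : phi N hN (DirectSum.lof R ℕ (fun n => N n) (n + k) s) =
          DirectSum.lof R ℕ (fun n => N n) (n + k) s -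
          DirectSum.lof R ℕ (fun n => N n) (n + k + 1)
            (Submodule.inclusion (hN (n + k).le_succ) s) := by
        simp [phi]
      rw [this]
      show _ = _ + (_ - _) + DirectSum.lof R ℕ (fun n => N n) (n + k + 1)
        (Submodule.inclusion (hN (n + k).le_succ) s)
      abel
  have up' : ∀ (n m : ℕ) (_ : n ≤ m) (t : N n), ∃ (e : ⨁ n, N n) (s : N m),
      DirectSum.lof R ℕ (fun n => N n) n t = phi N hN e +
        DirectSum.lof R ℕ (fun n => N n) m s := by
    intro n m h t
    obtain ⟨k, rfl⟩ := Nat.exists_eq_add_of_le h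
    exact up k n t
  induction d using DirectSum.induction_on with
  | zero => exact ⟨0, 0, 0, by simp⟩
  | of n t => exact ⟨0, n, t, by simp [DirectSum.lof_eq_of]⟩
  | add a b ha hb =>
    obtain ⟨e1, n1, t1, h1⟩ := ha
    obtain ⟨e2, n2, t2, h2⟩ := hb
    obtain ⟨f1, s1, g1⟩ := up' n1 (max n1 n2) (le_max_left _ _) t1
    obtain ⟨f2, s2, g2⟩ := up' n2 (max n1 n2) (le_max_right _ _) t2
    refine ⟨e1 + e2 + f1 + f2, max n1 n2, s1 + s2, ?_⟩
    rw [h1, h2, g1, g2]
    simp only [map_add]
    abel

include hN in
theorem Good.union (hG : Good G) (hT : ∀ t : T, ∃ n, t ∈ N n) (h : ∀ n, G (N n)) : G T := by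
  have h1 := hG.sum ℕ (fun n => N n) h
  refine (hG.ses _ _ _ (phi N hN) (psi N) (phi_inj N hN) ?_ ?_).1 h1 h1
  · intro t
    obtain ⟨n, hn⟩ := hT t
    exact ⟨DirectSum.lof R ℕ (fun n => N n) n ⟨t, hn⟩, by simp [psi]⟩
  · intro d
    constructor
    · intro hd
      obtain ⟨e, n, t, rfl⟩ := exists_rep N hN d
      rw [map_add, psi_phi, zero_add] at hd
      have : t = 0 := by
        apply Subtype.ext
        simpa [psi] using hd
      exact ⟨e, by rw [this]; simp⟩
    · rintro ⟨e, rfl⟩
      exact psi_phi N hN e

end Telescope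

/-- a module on which `x` is surjective and locally nilpotent is good if its `x`-torsion is -/
theorem Good.torsion (hG : Good G) {T : Type} [AddCommGroup T] [Module R T] (x : R)
    (h1 : ∀ t : T, ∃ n : ℕ, x ^ n • t = 0) (h2 : ∀ t : T, ∃ s : T, x • s = t)
    (h3 : G (Submodule.torsionBy R T x)) : G T := by
  have hmono : Monotone fun n => Submodule.torsionBy R T (x ^ n) := by
    intro a b hab t ht
    rw [Submodule.mem_torsionBy_iff] at ht ⊢
    obtain ⟨c, rfl⟩ := Nat.exists_eq_add_of_le hab
    rw [pow_add, mul_comm, mul_smul, ht, smul_zero]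
  refine Good.union (fun n => Submodule.torsionBy R T (x ^ n)) hmono hG ?_ ?_
  · intro t
    obtain ⟨n, hn⟩ := h1 t
    exact ⟨n, (Submodule.mem_torsionBy_iff _ _).2 hn⟩
  · intro n
    induction n with
    | zero =>
      have : Subsingleton (Submodule.torsionBy R T (x ^ 0)) := by
        refine ⟨?_⟩
        rintro ⟨a, ha⟩ ⟨b, hb⟩
        have ha' : a = 0 := by simpa using ha
        have hb' : b = 0 := by simpa using hb
        exact Subtype.ext (ha'.trans hb'.symm)
      exact hG.zero _
    | succ n ih =>
      let f : Submodule.torsionBy R T x →ₗ[R] Submodule.torsionBy R T (x ^ (n + 1)) :=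
        Submodule.inclusion (by
          intro t ht
          rw [Submodule.mem_torsionBy_iff] at ht ⊢
          rw [pow_succ, mul_smul, ht, smul_zero])
      let g : Submodule.torsionBy R T (x ^ (n + 1)) →ₗ[R] Submodule.torsionBy R T (x ^ n) :=
        ((LinearMap.lsmul R T x).comp (Submodule.subtype _)).codRestrict _ (by
          intro t
          have ht := (Submodule.mem_torsionBy_iff _ _).1 t.2
          rw [Submodule.mem_torsionBy_iff]
          simpa [pow_succ, mul_smul] using ht)
      refine (hG.ses _ _ _ f g (Submodule.inclusion_injective _) ?_ ?_).2.1 h3 ih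
      · rintro ⟨t, ht⟩
        obtain ⟨s, hs⟩ := h2 t
        have ht' := (Submodule.mem_torsionBy_iff _ _).1 ht
        refine ⟨⟨s, ?_⟩, Subtype.ext hs⟩
        rw [Submodule.mem_torsionBy_iff, pow_succ, mul_smul, hs, ht']
      · rintro ⟨t, ht⟩
        constructor
        · intro h
          have h' : x • t = 0 := congrArg Subtype.val h
          exact ⟨⟨t, (Submodule.mem_torsionBy_iff _ _).2 h'⟩, rfl⟩
        · rintro ⟨⟨s, hs⟩, h⟩
          have h' : s = t := congrArg Subtype.val h
          subst h'
          exact Subtype.ext ((Submodule.mem_torsionBy_iff _ _).1 hs)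

end Pool.Agent.Q322.LS
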